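import Pool.Agent.W312.TP.Stm
import Pool.Agent.H673R2.TsTree

/-! Project TP, task TP-GAD: from the tree of the core to a solution. -/

set_option autoImplicit false

namespace Pool.Agent.W369.TP

open Pool.Agent.W312.TP Pool.Agent.NPC Pool.Agent.H673R2 Pool.Agent.H673R2.Ts

theorem ev_eq {V : Type} (t p : ℕ) (P : ℕ → ℕ → V) (e : ℕ) (he : e < 2 * p) :
    ∃ i < p, ∃ j ≤ rr t - 1, EV t P e = P i j := by
  unfold EV
  split_ifs with h
  · exact ⟨e / 2, by omega, 0, by omega, rfl⟩
  · exact ⟨e / 2, by omega, rr t - 1, le_refl _, rfl⟩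

/-- two false elements of a gadget are not adjacent to the new vertices of the gadget -/
theorem key (hDD : DD) {t p : ℕ} {gs : List Gad} {V : Type} {T : SimpleGraph V} {c : ℕ → V}
    {P a : ℕ → ℕ → V} (ht : 4 ≤ t) (hC : CoreTree t p gs V T c P a) {i : ℕ} {g : Gad}
    (hg : gs[i]? = some g) {e e' : ℕ} (hee : e ≠ e') (he : e < 2 * p) (he' : e' < 2 * p)
    (hm' : e' = g.2.1 ∨ e' = g.2.2.1 ∨ e' = g.2.2.2)
    (hf : Fls t T c P e) (hf' : Fls t T c P e') {j : ℕ} (hj : j < kk t) :
    ¬ T.Adj (EV t P e) (a i j) := by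
  intro hadj
  have hi : i < gs.length := by
    by_contra h
    rw [List.getElem?_eq_none (by omega)] at hg
    simp at hg
  obtain ⟨h1, i', hi', j', hj', h2, h3⟩ := hDD t p gs V T c P a ht hC e he e' he' hee hf hf'
  obtain ⟨i₂, hi₂, j₂, hj₂, hev⟩ := ev_eq t p P e he
  have hsym : T.dist (EV t P e) (EV t P e') = T.dist (EV t P e') (EV t P e) :=
    SimpleGraph.dist_comm
  have h4 : T.dist (EV t P e') (a i j) = T.dist (EV t P e') (EV t P e) + 1 :=
    dist_next hC.tree h2.symm hadj (fun h => hC.ap i hi j hj i' hi' j' hj' h.symm) h3.symm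
  have h5 := hC.adist i g hg j hj e' hm'
  have hrr : rr t = t / 2 := rfl
  have hkk : kk t = t - 2 * (t / 2) + 1 := rfl
  by_cases hk : kk t = 1
  · omega
  · have hk2 : kk t = 2 := by omega
    have ht2 : t = 2 * rr t + 1 := by omega
    have hne : ∀ j₁, j₁ < kk t → EV t P e ≠ a i j₁ := by
      intro j₁ hj₁ h
      rw [hev] at h
      exact hC.ap i hi j₁ hj₁ i₂ hi₂ j₂ hj₂ h.symm
    have hj01 : j = 0 ∨ j = 1 := by omega
    rcases hj01 with rfl | rfl
    · have h6 : T.Adj (a i 0) (a i 1) := hC.aadj i hi 0 (by omega)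
      have h7 := dist_next hC.tree hadj h6 (hne 1 (by omega)) h4
      have h8 := hC.adist i g hg 1 (by omega) e' hm'
      omega
    · have h6 : T.Adj (a i 0) (a i 1) := hC.aadj i hi 0 (by omega)
      have h7 := dist_next hC.tree hadj h6.symm (hne 0 (by omega)) h4
      have h8 := hC.adist i g hg 0 (by omega) e' hm'
      omega

theorem proof_GAD (hTF : TF) (hDD : DD) : GAD := by
  intro t p gs V T c P a ht hP hC
  classical
  have hrr : rr t = t / 2 := rfl
  have hkk : kk t = t - 2 * (t / 2) + 1 := rfl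
  refine ⟨fun e => decide (¬ Fls t T c P e), fun i hi => ?_, fun g hg => ?_⟩
  · obtain ⟨-, h⟩ := hTF t p gs V T c P a ht hC
    have e0 : EV t P (2 * i) = P i 0 := by
      unfold EV
      rw [if_pos (by omega), show 2 * i / 2 = i by omega]
    have e1 : EV t P (2 * i + 1) = P i (rr t - 1) := by
      unfold EV
      rw [if_neg (by omega), show (2 * i + 1) / 2 = i by omega]
    rcases h i hi with ⟨h1, h2, h3⟩ | ⟨h1, h2, h3⟩
    · have f0 : ¬ Fls t T c P (2 * i) := by
        unfold Fls
        rw [e0]
        omega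
      have f1 : Fls t T c P (2 * i + 1) := by
        unfold Fls
        rw [e1]
        omega
      simp only [f0, f1, not_true_eq_false, not_false_eq_true, decide_true, decide_false,
        Bool.not_true]
    · have f0 : Fls t T c P (2 * i) := by
        unfold Fls
        rw [e0]
        omega
      have f1 : ¬ Fls t T c P (2 * i + 1) := by
        unfold Fls
        rw [e1]
        omega
      simp only [f0, f1, not_true_eq_false, not_false_eq_true, decide_true, decide_false,
        Bool.not_false]
  · obtain ⟨i, hi⟩ := List.mem_iff_getElem?.1 hg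
    have hil : i < gs.length := by
      by_contra h
      rw [List.getElem?_eq_none (by omega)] at hi
      simp at hi
    have hnd : [g.2.1, g.2.2.1, g.2.2.2].Nodup := (List.nodup_flatMap.1 hP.1).1 g hg
    have hlt : ∀ e, e = g.2.1 ∨ e = g.2.2.1 ∨ e = g.2.2.2 → e < 2 * p := by
      intro e he
      refine hP.2 e ?_
      unfold elts
      rw [List.mem_flatMap]
      refine ⟨g, hg, ?_⟩
      rcases he with rfl | rfl | rfl <;> simp
    have hxy : g.2.1 ≠ g.2.2.1 := by
      intro h
      rw [h] at hnd
      simp at hnd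
    have hxw : g.2.1 ≠ g.2.2.2 := by
      intro h
      rw [h] at hnd
      simp at hnd
    have hyw : g.2.2.1 ≠ g.2.2.2 := by
      intro h
      rw [h] at hnd
      simp at hnd
    have lx := hlt g.2.1 (Or.inl rfl)
    have ly := hlt g.2.2.1 (Or.inr (Or.inl rfl))
    have lw := hlt g.2.2.2 (Or.inr (Or.inr rfl))
    have hk0 : 0 < kk t := by omega
    unfold gadSat
    simp only [decide_eq_true_eq]
    by_contra hcon
    split_ifs at hcon with hkind
    · push Not at hcon
      obtain ⟨fx, fy, fw⟩ := hcon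
      -- leave the new vertices on a walk to the first element
      obtain ⟨q⟩ := hC.tree.connected.preconnected (a i 0) (EV t P g.2.1)
      have hnot : EV t P g.2.1 ∉ {v | ∃ j < kk t, v = a i j} := by
        rintro ⟨j, hj, h⟩
        obtain ⟨i₂, hi₂, j₂, hj₂, hev⟩ := ev_eq t p P g.2.1 lx
        rw [hev] at h
        exact hC.ap i hil j hj i₂ hi₂ j₂ hj₂ h.symm
      obtain ⟨d, -, ⟨j, hj, hd1⟩, hd2⟩ :=
        q.exists_boundary_dart {v | ∃ j < kk t, v = a i j} ⟨0, hk0, rfl⟩ hnot
      have hadj : T.Adj (a i j) d.snd := by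
        have := d.adj
        rwa [hd1] at this
      rcases hC.anbr i g hi j hj d.snd hadj with h | h | h | h
      · rw [h] at hadj
        exact key hDD ht hC hi hxy lx ly (Or.inr (Or.inl rfl)) fx fy hj hadj.symm
      · rw [h] at hadj
        exact key hDD ht hC hi hxy.symm ly lx (Or.inl rfl) fy fx hj hadj.symm
      · rw [h] at hadj
        exact key hDD ht hC hi hxw.symm lw lx (Or.inl rfl) fw fx hj hadj.symm
      · exact hd2 h
    · have hkf : g.1 = false := by
        cases h : g.1
        · rfl
        · exact absurd h hkind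
      have hadj := hC.a0 i g hi hkf
      push Not at hcon
      obtain ⟨fx, h2⟩ := hcon
      by_cases fy : Fls t T c P g.2.2.1
      · exact key hDD ht hC hi hxy lx ly (Or.inr (Or.inl rfl)) fx fy hk0 hadj
      · have fw := h2 fy
        exact key hDD ht hC hi hxw lx lw (Or.inr (Or.inr rfl)) fx fw hk0 hadj

end Pool.Agent.W369.TP
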