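import Pool.Agent.W312.TP.Stm

/-! Project TP, task TP-PAR: parity of the distances in a tree. -/

set_option autoImplicit false

namespace Pool.Agent.W369.TP

open Pool.Agent.W312.TP

theorem par_walk {V : Type} {T : SimpleGraph V} (hT : T.IsTree) (x : V) {y z : V}
    (p : T.Walk y z) : (T.dist x y + p.length + T.dist x z) % 2 = 0 := by
  induction p with
  | nil =>
    rw [SimpleGraph.Walk.length_nil]
    omega
  | cons h p ih =>
    rw [SimpleGraph.Walk.length_cons]
    rcases hT.dist_eq_dist_add_one_of_adj x h with h1 | h1 <;> omega

theorem proof_PAR : PAR := by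
  intro V T hT x y z
  obtain ⟨p, hp⟩ := hT.connected.exists_walk_length_eq_dist y z
  have h := par_walk hT x p
  rwa [hp] at h

end Pool.Agent.W369.TP
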